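import Pool.Agent.T6.H78.KF.Poin

/-!
# KLS for convex ferromagnetic lattice systems on arbitrary graphs

The Kannan-Lovasz-Simonovits inequality, in the equivalent (Cheeger, Buser, Ledoux) form of a Poincare
inequality, for all probability measures `μ` on `ℝⁿ` with density `exp (- H)`,
`H(x) = (1/2) ∑ A_ij x_i x_j + ∑ V_k(x_k)`, where `A` is symmetric and positive semidefinite (possibly
singular) with `A_ij ≤ 0` for `i ≠ j` and the `V_k` are even with `V_k'` nonnegative and convex
on `[0, ∞)` and `V_k'(2 x) ≤ L V_k'(x)` for `x ≥ 0`: lattice systems with ferromagnetic (attractive)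
pair interactions of any strength on an arbitrary weighted graph, with site dependent self-interactions;
for example all even polynomials `V_k` of degree at most `2 m` with nonnegative coefficients, with
`L = 2 ^ (2 m - 1)` (theorem `potential_of_poly`). The Poincare constant is at most
`2 L³ (L + 2) ‖Cov μ‖`, independently of the dimension, of the graph and of the size of the
coefficients.

Method. (1) If all posterior covariances of the Gaussian channel at noise level `h` are at most `h / 4`
then the Poincare constant is at most `2 h`. (2) The posteriors are Gibbs measures with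
an additional quadratic potential and an arbitrary, not necessarily positive, external field. Given the
sum `2 c` of two replicas, half of their difference has the even ferromagnetic density
`exp (- ⟪r, A r⟫ - ∑ (V_k(c_k + r_k) + V_k(c_k - r_k)) - |r|² / h)`; since
`V_k(c + r) + V_k(c - r) - 2 V_k(r)` increases with `r ≥ 0` (convexity of `V_k'`), the Griffiths
inequalities show that its covariance is entrywise nonnegative and at most the covariance `K` of
the measure with density `exp (- 2 H)`. So all posterior covariances are at most `2 ‖K‖`.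
(3) `‖K‖ ≤ C_L ‖Cov μ‖`: by integration by parts and the second Griffiths inequality
`K (2 A + 2 Q₀) ≤ 1` entrywise, by integration by parts, the inequality of Lebowitz and Ellis-Monroe-Newman
and a pointwise inequality for `V'` also `Cov μ (A + (L² (L + 2) / 4) Q) ≥ 1` entrywise, where `Q`, `Q₀`
are the diagonal matrices of the expectations of `V_j'(x_j) / x_j` for the two measures, `Q ≤ L Q₀`.
The Perron-Frobenius eigenvectors of `K` and of `A + (L² (L + 2) / 4) Q` then give the bound.
-/

set_option autoImplicit false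

namespace Pool.Agent.Results.MP_6d896a_gt.FerromagneticLattice

open MeasureTheory Set
open scoped ENNReal InnerProductSpace

/-- Euclidean space of dimension `n` -/
abbrev Euc (n : ℕ) : Type := EuclideanSpace ℝ (Fin n)

/-- the self-interactions: `V` is even and differentiable, `V'` is nonnegative and convex on `[0, ∞)`
and `V'(2 x) ≤ L V'(x)` for `x ≥ 0` -/
structure Potential (L : ℝ) (V : ℝ → ℝ) : Prop where
  diff : Differentiable ℝ V
  even : ∀ x, V (-x) = V x
  nonneg : ∀ x, 0 ≤ x → 0 ≤ deriv V x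
  conv : ConvexOn ℝ (Ici 0) (deriv V)
  dbl : ∀ x, 0 ≤ x → deriv V (2 * x) ≤ L * deriv V x

/-- the energy `H(x) = (1/2) ∑ A_ij x_i x_j + ∑ V_k(x_k)` -/
noncomputable def energy {n : ℕ} (A : Fin n → Fin n → ℝ) (V : Fin n → ℝ → ℝ) (x : Euc n) : ℝ :=
  (∑ i, ∑ j, A i j * (x i * x j)) / 2 + ∑ k, V k (x k)

/-- `Var ⟪θ, X⟫ ≤ s ‖θ‖²` for all `θ`: the covariance matrix of `μ` has norm at most `s`. -/
def CovLe {n : ℕ} (μ : Measure (Euc n)) (s : ℝ) : Prop :=
  ∀ θ : Euc n, ProbabilityTheory.evariance (fun x => ⟪θ, x⟫_ℝ) μ ≤ ENNReal.ofReal (s * ‖θ‖ ^ 2)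

/-- the even polynomials of degree at most `2 m` with nonnegative coefficients (and arbitrary constant
term) are admissible, `L = 2 ^ (2 m - 1)` -/
theorem potential_of_poly (m : ℕ) (c : ℝ) (a : Fin m → ℝ) (ha : ∀ j, 0 ≤ a j) :
    Potential (2 ^ (2 * m - 1)) fun x => c + ∑ j : Fin m, a j * x ^ (2 * ((j : ℕ) + 1)) := by
  have hd : ∀ x : ℝ, HasDerivAt (fun x : ℝ => c + ∑ j : Fin m, a j * x ^ (2 * ((j : ℕ) + 1)))
      (∑ j : Fin m, a j * ((2 * ((j : ℕ) + 1) : ℕ) * x ^ (2 * (j : ℕ) + 1))) x := by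
    intro x
    have h1 : ∀ j : Fin m, HasDerivAt (fun x : ℝ => a j * x ^ (2 * ((j : ℕ) + 1)))
        (a j * ((2 * ((j : ℕ) + 1) : ℕ) * x ^ (2 * (j : ℕ) + 1))) x := fun j => by
      have := (hasDerivAt_pow (2 * ((j : ℕ) + 1)) x).const_mul (a j)
      rwa [show 2 * ((j : ℕ) + 1) - 1 = 2 * (j : ℕ) + 1 by omega] at this
    exact (HasDerivAt.fun_sum fun j _ => h1 j).const_add c
  have he : deriv (fun x : ℝ => c + ∑ j : Fin m, a j * x ^ (2 * ((j : ℕ) + 1))) =
      fun x => ∑ j : Fin m, a j * ((2 * ((j : ℕ) + 1) : ℕ) * x ^ (2 * (j : ℕ) + 1)) :=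
    funext fun x => (hd x).deriv
  refine ⟨fun x => (hd x).differentiableAt, fun x => ?_, fun x hx => ?_, ?_, fun x hx => ?_⟩
  · congr 1
    refine Finset.sum_congr rfl fun j _ => ?_
    rw [pow_mul, pow_mul, neg_sq]
  · rw [he]
    exact Finset.sum_nonneg fun j _ => mul_nonneg (ha j) (by positivity)
  · rw [he]
    have h1 : ∀ j : Fin m, ConvexOn ℝ (Ici (0 : ℝ))
        fun x : ℝ => a j * ((2 * ((j : ℕ) + 1) : ℕ) * x ^ (2 * (j : ℕ) + 1)) := fun j => by
      have h2 := (convexOn_pow (𝕜 := ℝ) (2 * (j : ℕ) + 1)).smul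
        (mul_nonneg (ha j) (Nat.cast_nonneg (2 * ((j : ℕ) + 1))))
      refine h2.congr fun x _ => ?_
      simp only [smul_eq_mul]
      ring
    have h3 : ∀ s : Finset (Fin m), ConvexOn ℝ (Ici (0 : ℝ))
        fun x : ℝ => ∑ j ∈ s, a j * ((2 * ((j : ℕ) + 1) : ℕ) * x ^ (2 * (j : ℕ) + 1)) := by
      intro s
      induction s using Finset.induction_on with
      | empty => simpa using convexOn_const (0 : ℝ) (convex_Ici (0 : ℝ))
      | insert b s hb ih =>
        refine ((h1 b).add ih).congr fun x _ => ?_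
        simp [Finset.sum_insert hb]
    exact h3 _
  · rw [he]
    simp only
    rw [Finset.mul_sum]
    refine Finset.sum_le_sum fun j _ => ?_
    have h1 : (2 : ℝ) ^ (2 * (j : ℕ) + 1) ≤ 2 ^ (2 * m - 1) :=
      pow_le_pow_right₀ one_le_two (by have := j.2; omega)
    have h2 : 0 ≤ a j * ((2 * ((j : ℕ) + 1) : ℕ) * x ^ (2 * (j : ℕ) + 1)) :=
      mul_nonneg (ha j) (by positivity)
    calc a j * ((2 * ((j : ℕ) + 1) : ℕ) * (2 * x) ^ (2 * (j : ℕ) + 1)) =
        2 ^ (2 * (j : ℕ) + 1) * (a j * ((2 * ((j : ℕ) + 1) : ℕ) * x ^ (2 * (j : ℕ) + 1))) := by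
          rw [mul_pow]
          ring
      _ ≤ _ := mul_le_mul_of_nonneg_right h1 h2

open Pool.Agent.T6.H78.KF in
/-- **KLS for convex ferromagnetic lattice systems on arbitrary graphs.** Let `A` be a symmetric
positive semidefinite `n × n` matrix with `A_ij ≤ 0` for `i ≠ j`, let `L ≥ 2` and let the `V_k` be even
differentiable functions with `V_k'` nonnegative and convex on `[0, ∞)`, `V_k'(2 x) ≤ L V_k'(x)`
for `x ≥ 0`. If the measure `μ` with density `exp (-(1/2) ∑ A_ij x_i x_j - ∑ V_k(x_k))` is a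
probability measure and `s > 0` bounds the norm of its covariance matrix, then every `C¹` function `f`
with square integrable gradient is square integrable and
`Var_μ f ≤ 2 L³ (L + 2) s ∫ ‖∇ f‖² dμ`. -/
theorem result : ∀ (n : ℕ) (L : ℝ) (A : Fin n → Fin n → ℝ) (V : Fin n → ℝ → ℝ), 2 ≤ L →
    (∀ i j, A i j = A j i) → (∀ x : Fin n → ℝ, 0 ≤ ∑ i, ∑ j, A i j * (x i * x j)) →
    (∀ i j, i ≠ j → A i j ≤ 0) → (∀ k, Potential L (V k)) → ∀ μ : Measure (Euc n),
    μ = volume.withDensity (fun x => ENNReal.ofReal (Real.exp (-energy A V x))) →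
    IsProbabilityMeasure μ → ∀ s : ℝ, 0 < s → CovLe μ s → ∀ f : Euc n → ℝ, ContDiff ℝ 1 f →
    MemLp (fun x => ‖fderiv ℝ f x‖) 2 μ →
    MemLp f 2 μ ∧ ProbabilityTheory.variance f μ ≤
      2 * L ^ 3 * (L + 2) * s * ∫ x, ‖fderiv ℝ f x‖ ^ 2 ∂μ := by
  intro n L A V hL hsym hpsd hoff hV μ hμ hprob s hs hcov f hf hfd
  have hwm : Measurable (wt A V : E (Fin n) → ℝ) := by
    have h1 : Measurable fun x : E (Fin n) => ∑ k, V k (x k) :=
      Finset.measurable_sum _ fun k _ => (hV k).diff.continuous.measurable.comp (by fun_prop)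
    exact Real.measurable_exp.comp (((qd_cont A).measurable.div_const 2).add h1).neg
  have hμ' : μ = volume.withDensity fun x => ENNReal.ofReal (wt A V x) := hμ
  have hint : Integrable (wt A V : E (Fin n) → ℝ) := by
    refine ⟨hwm.aestronglyMeasurable, ?_⟩
    rw [hasFiniteIntegral_iff_ofReal (Filter.Eventually.of_forall fun x => (wt_pos x).le)]
    have h1 := hprob.measure_univ
    rw [hμ', withDensity_apply _ MeasurableSet.univ, Measure.restrict_univ] at h1
    rw [h1]
    exact ENNReal.one_lt_top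
  have hS : Sys L A V := ⟨hsym, fun x => hpsd x, hoff, fun k => ⟨(hV k).diff, (hV k).even,
    (hV k).conv, (hV k).nonneg, (hV k).dbl⟩, hL, hint⟩
  have hI : ∀ g : Euc n → ℝ, Integrable g μ ↔ Integrable fun x => g x * wt A V x := by
    intro g
    rw [hμ', integrable_withDensity_iff_integrable_smul₀' hwm.ennreal_ofReal.aemeasurable
      (Filter.Eventually.of_forall fun x => ENNReal.ofReal_lt_top)]
    refine integrable_congr (Filter.Eventually.of_forall fun x => ?_)
    simp only [smul_eq_mul]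
    rw [ENNReal.toReal_ofReal (wt_pos x).le, mul_comm]
  have hE : ∀ g : Euc n → ℝ, ∫ x, g x ∂μ = ∫ x, g x * wt A V x := by
    intro g
    rw [hμ']
    exact Pool.Agent.H888R2.KT.N2x.int_mu (fun x => (wt_pos x).le) hwm g
  have hZ1 : ∫ x : E (Fin n), wt A V x = 1 := by
    have := hE fun _ => 1
    simpa using this.symm
  -- the covariance matrix
  have hC : ∀ w : E (Fin n), qd (cm A V) w ≤ s * ‖w‖ ^ 2 := by
    intro w
    have hwx : ∀ x : E (Fin n), ⟪w, x⟫_ℝ = ∑ k, w k * x k := fun x => by
      rw [real_inner_comm, inner_eq]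
    have hP1 : PG fun x : E (Fin n) => ⟪w, x⟫_ℝ := by
      simp only [hwx]
      exact PG.sum _ fun k _ => (PG.coord k).cmul (w k)
    have hP2 : PG fun x : E (Fin n) => ⟪w, x⟫_ℝ ^ 2 := by
      simp only [sq]
      exact hP1.mul hP1
    have hi2 : Integrable (fun x : Euc n => ⟪w, x⟫_ℝ ^ 2) μ := (hI _).2 (hS.intg hP2)
    have hL2 : MemLp (fun x : Euc n => ⟪w, x⟫_ℝ) 2 μ :=
      (memLp_two_iff_integrable_sq hP1.meas.aestronglyMeasurable).2 hi2
    have h1 : ∫ x : Euc n, ⟪w, x⟫_ℝ ∂μ = 0 := by
      rw [hE]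
      simp only [hwx, Finset.sum_mul]
      rw [integral_finsetSum _ fun k _ => by
        have := hS.intg ((PG.coord (ι := Fin n) k).cmul (w k))
        exact this]
      refine Finset.sum_eq_zero fun k _ => ?_
      simp only [mul_assoc]
      rw [integral_const_mul, hS.odd_int, mul_zero]
    have h2 : ProbabilityTheory.variance (fun x : Euc n => ⟪w, x⟫_ℝ) μ ≤ s * ‖w‖ ^ 2 := by
      have h3 := hcov w
      rw [← hL2.ofReal_variance_eq] at h3
      exact (ENNReal.ofReal_le_ofReal_iff (by positivity)).1 h3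
    rw [ProbabilityTheory.variance_of_integral_eq_zero hP1.meas.aemeasurable h1, hE] at h2
    refine le_trans (le_of_eq ?_) h2
    have h4 : ∀ x : E (Fin n), ⟪w, x⟫_ℝ ^ 2 * wt A V x =
        ∑ u, ∑ v, w u * w v * (x u * x v * wt A V x) := by
      intro x
      rw [real_inner_comm, inner_sq]
      simp only [Finset.sum_mul]
      refine Finset.sum_congr rfl fun u _ => Finset.sum_congr rfl fun v _ => ?_
      ring
    have h5 : ∀ u v : Fin n, Integrable fun x : E (Fin n) => w u * w v * (x u * x v * wt A V x) :=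
      fun u v => (hS.intg ((PG.coord u).mul (PG.coord v))).const_mul _
    simp only [h4]
    rw [integral_finsetSum _ fun u _ => integrable_finsetSum _ fun v _ => h5 u v]
    refine Finset.sum_congr rfl fun u _ => ?_
    rw [integral_finsetSum _ fun v _ => h5 u v]
    refine Finset.sum_congr rfl fun v _ => ?_
    rw [integral_const_mul, cm, ex, hZ1, div_one]
    ring
  have hK := hS.kbound hs.le hC
  set κ := L ^ 2 * (L + 2) / 4 * L / 2 * s with hκ
  have hκ0 : 0 < κ := by
    have : 0 < L := by linarith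
    positivity
  have hfdm : Measurable fun x => ‖fderiv ℝ f x‖ := (hf.continuous_fderiv (by norm_num)).norm.measurable
  have hg : Integrable fun x : E (Fin n) => ‖fderiv ℝ f x‖ ^ 2 * wt A V x :=
    (hI _).1 ((memLp_two_iff_integrable_sq hfdm.aestronglyMeasurable).1 hfd)
  obtain ⟨p1, p2⟩ := hS.poin hκ0 hK hf hg
  have hfL : MemLp f 2 μ :=
    (memLp_two_iff_integrable_sq hf.continuous.measurable.aestronglyMeasurable).2 ((hI _).2 p1)
  refine ⟨hfL, ?_⟩
  rw [ProbabilityTheory.variance_eq_sub hfL]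
  rw [hZ1, mul_one, mul_one] at p2
  have e1 : ∫ x, (f ^ 2) x ∂μ = ∫ x, f x ^ 2 * wt A V x := by
    rw [hE]
    rfl
  rw [e1, hE f, hE fun x => ‖fderiv ℝ f x‖ ^ 2]
  refine p2.trans (le_of_eq ?_)
  rw [hκ]
  ring

end Pool.Agent.Results.MP_6d896a_gt.FerromagneticLattice
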