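import Pool.Agent.T6.H95.KS.Un

/-!
# The KLS inequality for tuples of matrices and vectors invariant under the symplectic group

The Kannan-Lovasz-Simonovits conjecture, in the form of a Poincare inequality, for all log-concave
probability measures on tuples `(X_1, …, X_q, v_1, …, v_m)` of `q` real `N × N` matrices and `m`
vectors of `ℝ^N`, `N = 4 n`, and on all invariant linear subspaces of the space of these tuples, whose
density is invariant only under `X_j ↦ g X_j gᵀ`, `v_i ↦ g v_i` for the `g` in the compact symplectic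
group `Sp(n)`, that is, for the orthogonal matrices `g` which commute with a quaternionic structure.
The constant is `C (q + 1)² (1 + (q + m) / N)²` with an absolute constant `C`.

The dimension of `Sp(n)` is about one quarter of the one of `SO(4 n)` and the space of the fixed
matrices has dimension `4` instead of `1`. Examples: `q`-tuples of quaternionic Hermitian, skew
Hermitian or arbitrary quaternionic `n × n` matrices under simultaneous conjugation, together with
vectors of `ℍ^n`; complex antisymmetric matrices and real linear maps of `ℍ^n`.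

Method: as for `SO(N)` (starting result `TensorTuples`, modules `Pool.Agent.TH591.TT`: local Poincare
inequality on the convex set where all operator norms are at most `C √(N s)`, tails, gluing), with the
following new parts: the tight frame of the Lie algebra obtained by averaging over the quaternion
units, its Killing form and Casimir operators; the transitivity of the stabilisers through
quaternionic reflections and scalars; tails of operator norms from the components of `X v`
orthogonal to `v, I v, J v, I J v` and from differences of the forms `⟪I v, X v⟫`, …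
Files of this proof: `Pool/Agent/T6/H95/KS/`.
-/

set_option autoImplicit false

namespace Pool.Agent.Results.MP_6d896a_gt.QuaternionicTuples

open MeasureTheory Set
open scoped ENNReal InnerProductSpace Matrix

/-- tuples of `q` real `N × N` matrices and `m` vectors of `ℝ^N`, with the Euclidean
(Hilbert-Schmidt) structure -/
abbrev Tup (q m N : ℕ) : Type := EuclideanSpace ℝ ((Fin q × (Fin N × Fin N)) ⊕ (Fin m × Fin N))

/-- the matrix `X_j` of the tuple `x` -/
def mat {q m N : ℕ} (j : Fin q) (x : Tup q m N) : Matrix (Fin N) (Fin N) ℝ :=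
  Matrix.of fun a b => x (Sum.inl (j, (a, b)))

/-- the vector `v_i` of the tuple `x` -/
def vec {q m N : ℕ} (i : Fin m) (x : Tup q m N) : Fin N → ℝ := fun a => x (Sum.inr (i, a))

/-- `I`, `J` is a quaternionic structure on `ℝ^N`: orthogonal matrices with `I² = J² = -1` and
`J I = - I J`. -/
structure QuaternionicStructure {N : ℕ} (I J : Matrix (Fin N) (Fin N) ℝ) : Prop where
  orthogonal_I : I * Iᵀ = 1
  orthogonal_J : J * Jᵀ = 1
  sq_I : I * I = -1
  sq_J : J * J = -1
  anticommute : J * I = -(I * J)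

/-- `g ∈ Sp(n)`, `N = 4 n`: `g` is orthogonal and commutes with `I` and `J`. -/
def Symplectic {N : ℕ} (I J g : Matrix (Fin N) (Fin N) ℝ) : Prop :=
  g * gᵀ = 1 ∧ g * I = I * g ∧ g * J = J * g

/-- `y` is the tuple `x` transformed by `g`: `X_j ↦ g X_j gᵀ`, `v_i ↦ g v_i` -/
def Transformed {q m N : ℕ} (g : Matrix (Fin N) (Fin N) ℝ) (x y : Tup q m N) : Prop :=
  (∀ j, mat j y = g * mat j x * gᵀ) ∧ ∀ i, vec i y = g *ᵥ vec i x

/-- `ι` is a linear isometry of the Euclidean space `ℝ^κ` onto a linear subspace of the space of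
tuples which is invariant under `Sp(n)`. -/
def InvSubspace {κ : Type} [Fintype κ] {q m N : ℕ} (I J : Matrix (Fin N) (Fin N) ℝ)
    (ι : EuclideanSpace ℝ κ →ₗᵢ[ℝ] Tup q m N) : Prop :=
  ∀ g : Matrix (Fin N) (Fin N) ℝ, Symplectic I J g → ∀ x, ∃ y, Transformed g (ι x) (ι y)

/-- `ρ` is a log-concave density on the subspace `ι(ℝ^κ)`, invariant under `Sp(n)`. -/
structure InvDensity {κ : Type} [Fintype κ] {q m N : ℕ} (I J : Matrix (Fin N) (Fin N) ℝ)
    (ι : EuclideanSpace ℝ κ →ₗᵢ[ℝ] Tup q m N) (ρ : EuclideanSpace ℝ κ → ℝ) : Prop where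
  meas : Measurable ρ
  nonneg : ∀ x, 0 ≤ ρ x
  logc : ∀ x y, ∀ t : ℝ, 0 < t → t < 1 → ρ x ^ (1 - t) * ρ y ^ t ≤ ρ ((1 - t) • x + t • y)
  inv : ∀ g : Matrix (Fin N) (Fin N) ℝ, Symplectic I J g →
    ∀ x y, Transformed g (ι x) (ι y) → ρ y = ρ x

/-- `Var ⟪θ, X⟫ ≤ s ‖θ‖²` for all `θ`: the covariance matrix of `μ` has norm at most `s`. -/
def CovLe {κ : Type} [Fintype κ] (μ : Measure (EuclideanSpace ℝ κ)) (s : ℝ) : Prop :=
  ∀ θ : EuclideanSpace ℝ κ, ProbabilityTheory.evariance (fun x => ⟪θ, x⟫_ℝ) μ ≤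
    ENNReal.ofReal (s * ‖θ‖ ^ 2)

/-- Poincare inequality: `Var f ≤ K E ‖∇ f‖²` for all `C¹` functions `f ∈ L²(μ)`. -/
def PoincareLe {κ : Type} [Fintype κ] (μ : Measure (EuclideanSpace ℝ κ)) (K : ℝ) : Prop :=
  ∀ f : EuclideanSpace ℝ κ → ℝ, ContDiff ℝ 1 f → MemLp f 2 μ →
    ENNReal.ofReal (ProbabilityTheory.variance f μ) ≤
      ENNReal.ofReal K * ∫⁻ x, ENNReal.ofReal (‖fderiv ℝ f x‖ ^ 2) ∂μ

/-- **KLS for log-concave measures on tuples of matrices and vectors invariant under the compact
symplectic group.** There is an absolute constant `C` such that for all `q, m, N`, every quaternionic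
structure `I, J` on `ℝ^N`, every isometrically parametrised linear subspace `ι(ℝ^κ)`, invariant under
`Sp(n)`, of the space of tuples of `q` real `N × N` matrices and `m` vectors of `ℝ^N`, every
log-concave probability density `ρ` on it invariant under `X_j ↦ g X_j gᵀ`, `v_i ↦ g v_i`, `g ∈ Sp(n)`,
and all variances `Var ⟪θ, X⟫ ≤ s ‖θ‖²`: the Poincare inequality holds with the constant
`C (q + 1)² (1 + (q + m) / N)² s`. -/
theorem result : ∃ C : ℝ, 0 < C ∧ ∀ (q m N : ℕ) (I J : Matrix (Fin N) (Fin N) ℝ),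
    QuaternionicStructure I J → ∀ (κ : Type) [Fintype κ]
    (ι : EuclideanSpace ℝ κ →ₗᵢ[ℝ] Tup q m N), InvSubspace I J ι →
    ∀ ρ : EuclideanSpace ℝ κ → ℝ, InvDensity I J ι ρ →
    ∀ μ : Measure (EuclideanSpace ℝ κ), μ = volume.withDensity (fun x => ENNReal.ofReal (ρ x)) →
    IsProbabilityMeasure μ → ∀ s : ℝ, 0 < s → CovLe μ s →
    PoincareLe μ (C * ((q + 1) ^ 2 * (1 + (q + m) / N) ^ 2) * s) := by
  obtain ⟨C, hC, h⟩ := T6.H95.KS.sp_quat'
  refine ⟨C, hC, ?_⟩
  intro q m N I J hIJ κ _ ι hι ρ hρ' μ hμ hprob s hs hcov f hf hfL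
  subst hμ
  have hQ : T6.H95.KS.Quat I J := by
    have e : ∀ A : Matrix (Fin N) (Fin N) ℝ, A * Aᵀ = 1 → Aᵀ * A = 1 := fun A hA =>
      TH591.TT.orth2 ((Matrix.mem_orthogonalGroup_iff (Fin N) ℝ).2 hA)
    exact ⟨e I hIJ.orthogonal_I, e J hIJ.orthogonal_J, hIJ.sq_I, hIJ.sq_J, hIJ.anticommute⟩
  have hrot : ∀ g : Matrix (Fin N) (Fin N) ℝ, Symplectic I J g ↔
      g ∈ T6.H95.KS.Hc (T6.H95.KS.QQ I J) := by
    intro g
    constructor
    · rintro ⟨h1, h2, h3⟩
      refine ⟨(Matrix.mem_orthogonalGroup_iff (Fin N) ℝ).2 h1, fun γ => ?_⟩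
      fin_cases γ
      · show g * 1 = 1 * g
        rw [Matrix.mul_one, Matrix.one_mul]
      · exact h2
      · exact h3
      · show g * (I * J) = I * J * g
        rw [← Matrix.mul_assoc, h2, Matrix.mul_assoc, h3, Matrix.mul_assoc]
    · rintro ⟨h1, h2⟩
      exact ⟨TH591.TT.orth1 h1, h2 1, h2 2⟩
  have hact : ∀ (g : Matrix (Fin N) (Fin N) ℝ) (x y : Tup q m N),
      Transformed g x y ↔ y = TH591.TT.RR g x := by
    intro g x y
    constructor
    · rintro ⟨h1, h2⟩
      refine TH591.TT.ext_mv h1 ?_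
      ext a i
      exact congrFun (h2 i) a
    · intro h1
      subst h1
      exact ⟨fun j => rfl, fun i => rfl⟩
  have hι' : T6.H95.KS.InvH (T6.H95.KS.Hc (T6.H95.KS.QQ I J)) ι := by
    intro g hg x
    obtain ⟨y, hy⟩ := hι g ((hrot g).2 hg) x
    exact ⟨y, (hact g _ _).1 hy⟩
  have hρ : TH591.TT.GD (T6.H95.KS.GH (T6.H95.KS.Hc (T6.H95.KS.QQ I J)) ι) ρ := by
    refine ⟨hρ'.nonneg, hρ'.meas, hρ'.logc, ?_⟩
    rintro e ⟨g, hg, he⟩ x
    exact hρ'.inv g ((hrot g).2 hg) x _ ((hact g _ _).2 (he x))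
  have h4 := TH591.TT.centG (mul_pos hC (TH591.TT.fac_pos q m N)) (h I J hQ ι hι') ρ hρ
    hprob.measure_univ s hs hcov f hf hfL
  rw [ProbabilityTheory.variance_eq_integral hfL.aestronglyMeasurable.aemeasurable]
  exact h4

end Pool.Agent.Results.MP_6d896a_gt.QuaternionicTuples
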