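import Pool.Agent.T6.H95.QG.Top

/-!
# KLS for gauge invariant log-concave measures on representations of a quiver

Let `Q` be a finite quiver with dimension vector `d` and a set of gauge vertices `v`, `d(v) ≥ 3`.
A representation is a family `(X_e)` of real matrices, one matrix `X_e` of size
`d(tgt e) × d(src e)` for every arrow `e`. The gauge group, the product of the groups `SO(d(v))`
over the gauge vertices, acts by `X_e ↦ g_(tgt e) X_e g_(src e)ᵀ`. This contains lattice gauge
fields with values in all matrices (a matrix for each edge of a graph), coupled to vectors (arrows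
from a vertex which is not a gauge vertex), matrices at a vertex up to simultaneous conjugation
(loops), and their combinations.

We prove the Kannan-Lovasz-Simonovits conjecture, in the equivalent (E. Milman) form of a variance
bound for Lipschitz functions, for all log-concave probability measures on the space of
representations which are invariant under the gauge group, with a constant `C κ δ`. Here `κ` is a
bound for the KLS constants in dimension at most the number `k` of the invariant coordinates, that
is, the number of loops at gauge vertices (the traces) plus the number of entries of matrices between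
vertices without gauge group; one can always take `κ = k + 1`, and `k = 0` if there are no
loops at gauge vertices and every arrow has an end at a gauge vertex. The number `δ` is the largest
weighted degree of a gauge vertex; it is of the order of the degree if neighbours have comparable
dimensions and the logarithm of the number of the arrows is at most the dimensions. The constant
does not depend on the number of the vertices and on the dimensions.

Method: discrete Bochner inequality through the Gaussian channel (the library of the starting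
results) for the Lie algebra of the gauge group, normalised such that the Killing form is the same at
all vertices, on the set where the operator norms of all `X_e` are small; exponential tails of these
norms by the starting estimates, here for equivariant contractions; the Gaussian tilt in the
invariant directions is removed with the KLS constant of the space of these directions, and not with
its dimension (`UT_of_KLSb`); and gluing for Lipschitz functions.
-/

set_option autoImplicit false

namespace Pool.Agent.Results.MP_6d896a_gt.QuiverGauge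

open MeasureTheory Set
open scoped ENNReal InnerProductSpace
open Pool.Agent.T6.H95.QG (Qv)

/-- the representations of the quiver `Q` (source `Q.src`, target `Q.tgt`, dimension vector
`Q.dim`) with the Euclidean (Hilbert-Schmidt) structure -/
abbrev Rep {B E : Type} (Q : Qv B E) : Type :=
  EuclideanSpace ℝ (Σ e : E, Fin (Q.dim (Q.tgt e)) × Fin (Q.dim (Q.src e)))

/-- the matrix `X_e` of the arrow `e` -/
def mat {B E : Type} (Q : Qv B E) (e : E) (x : Rep Q) :
    Matrix (Fin (Q.dim (Q.tgt e))) (Fin (Q.dim (Q.src e))) ℝ :=
  Matrix.of fun i j => x ⟨e, (i, j)⟩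

/-- `ρ` is a (measurable) log-concave density. -/
structure LogConcave {ι : Type} [Fintype ι] (ρ : EuclideanSpace ℝ ι → ℝ) : Prop where
  meas : Measurable ρ
  nonneg : ∀ x, 0 ≤ ρ x
  logc : ∀ x y, ∀ t : ℝ, 0 < t → t < 1 → ρ x ^ (1 - t) * ρ y ^ t ≤ ρ ((1 - t) • x + t • y)

/-- `g` is an element of the gauge group: special orthogonal matrices at the gauge vertices
`Q.gauge`, the identity at the other vertices. -/
def InGaugeGroup {B E : Type} (Q : Qv B E)
    (g : (v : B) → Matrix (Fin (Q.dim v)) (Fin (Q.dim v)) ℝ) : Prop :=
  (∀ v ∈ Q.gauge, g v ∈ Matrix.orthogonalGroup (Fin (Q.dim v)) ℝ ∧ (g v).det = 1) ∧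
    ∀ v ∉ Q.gauge, g v = 1

/-- `y` is the representation `g_(tgt e) X_e g_(src e)ᵀ`, where `X_e` are the matrices of `x`. -/
def Transformed {B E : Type} (Q : Qv B E)
    (g : (v : B) → Matrix (Fin (Q.dim v)) (Fin (Q.dim v)) ℝ) (x y : Rep Q) : Prop :=
  ∀ e, mat Q e y = g (Q.tgt e) * mat Q e x * (g (Q.src e)).transpose

/-- `ρ` is invariant under the gauge group. -/
def GaugeInvariant {B E : Type} (Q : Qv B E) (ρ : Rep Q → ℝ) : Prop :=
  ∀ g, InGaugeGroup Q g → ∀ x y, Transformed Q g x y → ρ y = ρ x

/-- `Var ⟪θ, X⟫ ≤ s ‖θ‖²` for all `θ`: the covariance matrix has norm at most `s`. -/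
def CovLe {ι : Type} [Fintype ι] (μ : Measure (EuclideanSpace ℝ ι)) (s : ℝ) : Prop :=
  ∀ θ : EuclideanSpace ℝ ι, ProbabilityTheory.evariance (fun x => ⟪θ, x⟫_ℝ) μ ≤
    ENNReal.ofReal (s * ‖θ‖ ^ 2)

/-- the law with density `ρ` -/
noncomputable def law {ι : Type} [Fintype ι] (ρ : EuclideanSpace ℝ ι → ℝ) :
    Measure (EuclideanSpace ℝ ι) := volume.withDensity fun x => ENNReal.ofReal (ρ x)

/-- `E ‖∇ f‖²` -/
noncomputable def energy {ι : Type} [Fintype ι] (μ : Measure (EuclideanSpace ℝ ι))
    (f : EuclideanSpace ℝ ι → ℝ) : ℝ≥0∞ := ∫⁻ x, ENNReal.ofReal (‖fderiv ℝ f x‖ ^ 2) ∂μ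

/-- the Poincare inequality `Var f ≤ K E ‖∇ f‖²` for all `C¹` functions of finite variance -/
def Poincare {ι : Type} [Fintype ι] (μ : Measure (EuclideanSpace ℝ ι)) (K : ℝ) : Prop :=
  ∀ f, ContDiff ℝ 1 f → MemLp f 2 μ →
    ENNReal.ofReal (ProbabilityTheory.variance f μ) ≤ ENNReal.ofReal K * energy μ f

/-- `K` is a bound for the KLS (Poincare) constants in dimension `n`: every log-concave probability
measure on `ℝ ^ n` whose covariance matrix has norm at most `s` satisfies the Poincare inequality with
the constant `K s`. -/
def KLSBound (n : ℕ) (K : ℝ) : Prop :=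
  ∀ ρ : EuclideanSpace ℝ (Fin n) → ℝ, LogConcave ρ → IsProbabilityMeasure (law ρ) →
    ∀ s : ℝ, 0 < s → CovLe (law ρ) s → Poincare (law ρ) (K * s)

/-- The number `k` of the invariant coordinates: the loops at gauge vertices, and the entries of the
matrices of the arrows which have no end at a gauge vertex. -/
noncomputable def invCoords {B E : Type} (Q : Qv B E) : ℕ :=
  Nat.card {e : E // Q.tgt e = Q.src e ∧ Q.tgt e ∈ Q.gauge} +
    Nat.card (Σ e : {e : E // Q.tgt e ∉ Q.gauge ∧ Q.src e ∉ Q.gauge},
      Fin (Q.dim (Q.tgt e.1)) × Fin (Q.dim (Q.src e.1)))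

/-- `κ` is `k + 1`, where `k` is the number of the invariant coordinates, or a bound, at least `1`, for
the KLS constants in dimension at most `k`. -/
def Admissible {B E : Type} (Q : Qv B E) (κ : ℝ) : Prop :=
  κ = invCoords Q + 1 ∨ (1 ≤ κ ∧ ∀ n ≤ invCoords Q, KLSBound n κ)

/-- `(1 + (d(o) + log D) / d(w)) ^ 2`, where `D` is the dimension of the space of
representations -/
noncomputable def endWeight {B E : Type} [Fintype E] (Q : Qv B E) (w o : B) : ℝ :=
  (1 + (Q.dim o + Real.log (Module.finrank ℝ (Rep Q))) / Q.dim w) ^ 2

open Classical in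
/-- The weighted degree of the vertex `w`: the sum of `(1 + (d(o) + log D) / d(w)) ^ 2` over the ends
at `w` of arrows between `w` and `o` (a loop has two ends at `w`). -/
noncomputable def weightedDegree {B E : Type} [Fintype E] (Q : Qv B E) (w : B) : ℝ :=
  ∑ e, ((if Q.tgt e = w then endWeight Q w (Q.src e) else 0) +
    (if Q.src e = w then endWeight Q w (Q.tgt e) else 0))

/-- Every `C¹` function with `‖∇ f‖ ≤ 1` has variance at most `K`, and every `C¹` function with
`|f| ≤ 1` satisfies `(Var f)² ≤ K E ‖∇ f‖²`. -/
def LipschitzKLS {ι : Type} [Fintype ι] (μ : Measure (EuclideanSpace ℝ ι)) (K : ℝ) : Prop :=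
  ∀ f, ContDiff ℝ 1 f →
    ((∀ x, ‖fderiv ℝ f x‖ ≤ 1) → MemLp f 2 μ ∧ ProbabilityTheory.variance f μ ≤ K) ∧
    ((∀ x, |f x| ≤ 1) → ENNReal.ofReal (ProbabilityTheory.variance f μ ^ 2) ≤
      ENNReal.ofReal K * energy μ f)

/-- **KLS for gauge invariant measures.** There is an absolute constant `C` with the following
property. Let `Q` be a finite quiver with positive dimensions, at least `3` at the gauge vertices,
let `δ ≥ 1` be a bound for the weighted degrees of the gauge vertices, and let `κ` be `k + 1`, where
`k` is the number of the invariant coordinates, or any bound `κ ≥ 1` for the KLS constants in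
dimension at most `k`. Then for every log-concave probability density on the space of
representations of `Q` that is invariant under the gauge group and has a covariance matrix of norm at
most `s`, the following holds with `K = C κ δ s`. Every `C¹` function with `‖∇ f‖ ≤ 1` has variance
at most `K`, and every `C¹` function with `|f| ≤ 1` satisfies `(Var f)² ≤ K E ‖∇ f‖²`. -/
theorem result : ∃ C : ℝ, 0 < C ∧ ∀ (B E : Type) [Finite B] [Fintype E] [Nonempty E]
    (Q : Qv B E), (∀ v, 1 ≤ Q.dim v) → (∀ v ∈ Q.gauge, 3 ≤ Q.dim v) →
    ∀ δ : ℝ, 1 ≤ δ → (∀ v ∈ Q.gauge, weightedDegree Q v ≤ δ) → ∀ κ : ℝ, Admissible Q κ →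
    ∀ ρ : Rep Q → ℝ, LogConcave ρ → GaugeInvariant Q ρ → IsProbabilityMeasure (law ρ) →
    ∀ s : ℝ, 0 < s → CovLe (law ρ) s → LipschitzKLS (law ρ) (C * κ * δ * s) := by
  obtain ⟨C, hC, h⟩ := Pool.Agent.T6.H95.QG.topQ
  refine ⟨C, hC, ?_⟩
  intro B E _ _ _ Q hd1 h3 δ hδ hdeg κ hκ ρ hρ hinv hprob s hs hcov f hf
  have : Fintype B := Fintype.ofFinite B
  have hfin : (Module.finrank ℝ (Rep Q) : ℕ) = Fintype.card Q.Ix := finrank_euclideanSpace
  refine h Q h3 hd1 κ ?_ δ hδ (fun w hw => ?_) ρ
    ⟨hρ.nonneg, hρ.meas, hρ.logc, fun e he x => ?_⟩ hprob.measure_univ s hs hcov f hf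
  · rcases hκ with h1 | ⟨h1, h2⟩
    · exact Or.inl h1
    · refine Or.inr ⟨h1, fun n hn => ?_⟩
      intro ρ' e1 e2 e3 μ' hμ hP s' hs' hcov' f' hf' hL'
      subst hμ
      exact h2 n hn ρ' ⟨e2, e1, e3⟩ hP s' hs' hcov' f' hf' hL'
  · have h4 := hdeg w hw
    unfold weightedDegree endWeight at h4
    rw [hfin] at h4
    exact h4
  · obtain ⟨g, hg, hge⟩ := he
    rw [hge]
    exact hinv g ⟨fun v hv => hg.1 v hv, hg.2⟩ x _ (fun e => rfl)

end Pool.Agent.Results.MP_6d896a_gt.QuiverGauge
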